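import Pool.Agent.helper86.BZ.Poly

set_option autoImplicit false

/-! The determinant (MP_f6b435_co). -/

namespace Pool.Agent.helper86.BZ

open Pool.BZ

/-! ### the operator `TT` -/

noncomputable def TTL : PowerSeries ℚ →ₗ[ℚ] PowerSeries ℚ where
  toFun := TT
  map_add' f g := by
    ext m
    simp only [TT, map_add, PowerSeries.coeff_mk, mul_add]
    split_ifs <;> simp
  map_smul' c f := by
    ext m
    simp only [TT, PowerSeries.coeff_mk, RingHom.id_apply, mul_smul_comm, map_smul]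
    split_ifs <;> simp

lemma TTL_pow (n : ℕ) (f : PowerSeries ℚ) : (TTL ^ n) f = TT^[n] f := by
  rw [Module.End.pow_apply]; rfl

lemma TT_X (k : ℕ) (h : PowerSeries ℚ) : TT (PowerSeries.X ^ (k + 2) * h) =
    PowerSeries.X ^ (k + 1) * ((1 + PowerSeries.X) * geo * h) := by
  ext m
  rw [TT, PowerSeries.coeff_mk]
  have e : (1 + PowerSeries.X) * geo * (PowerSeries.X ^ (k + 2) * h)
      = PowerSeries.X * (PowerSeries.X ^ (k + 1) * ((1 + PowerSeries.X) * geo * h)) := by ring
  rw [e, PowerSeries.coeff_succ_X_mul]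
  split_ifs with hm
  · subst hm
    rw [PowerSeries.coeff_X_pow_mul', if_neg (by omega)]
  · rfl

lemma TT_iter (n : ℕ) : ∀ (k : ℕ) (h : PowerSeries ℚ), TT^[n] (PowerSeries.X ^ (n + k + 1) * h) =
    PowerSeries.X ^ (k + 1) * (((1 + PowerSeries.X) * geo) ^ n * h) := by
  induction n with
  | zero => intro k h; simp
  | succ n ih =>
    intro k h
    rw [Function.iterate_succ_apply, show n + 1 + k + 1 = (n + k) + 2 by ring, TT_X, ih, pow_succ]
    ring

lemma om_omb : (1 + PowerSeries.X) * geo * omb = -PowerSeries.X := by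
  have h1 := geo_mul
  have h2 := gm_mul
  unfold omb
  calc (1 + PowerSeries.X) * geo * -(PowerSeries.X * (1 - PowerSeries.X) * gm)
      = -PowerSeries.X * (geo * (1 - PowerSeries.X)) * (gm * (1 + PowerSeries.X)) := by ring
    _ = _ := by rw [h1, h2]; ring

lemma TT_omb (i : ℕ) : TT (omb ^ (i + 1)) = if i = 0 then 0 else -(omb ^ i) := by
  ext m
  rw [TT, PowerSeries.coeff_mk]
  have e : (1 + PowerSeries.X) * geo * omb ^ (i + 1) = -(PowerSeries.X * omb ^ i) := by
    rw [pow_succ]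
    linear_combination omb ^ i * om_omb
  rw [e, map_neg, PowerSeries.coeff_succ_X_mul]
  by_cases hi : i = 0
  · subst hi
    rw [if_pos rfl, pow_zero, PowerSeries.coeff_one, map_zero]
    split_ifs <;> simp
  · rw [if_neg hi, map_neg]
    split_ifs with hm
    · subst hm
      rw [PowerSeries.coeff_zero_eq_constantCoeff_apply, map_pow, constantCoeff_omb, zero_pow hi,
        neg_zero]
    · rfl

lemma TT_iter_omb (n : ℕ) : ∀ i : ℕ, i < n → (TTL ^ n) (omb ^ (i + 1)) = 0 := by
  induction n with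
  | zero => intro i hi; omega
  | succ n ih =>
    intro i hi
    rw [pow_succ, Module.End.mul_apply]
    have : TTL (omb ^ (i + 1)) = TT (omb ^ (i + 1)) := rfl
    rw [this, TT_omb]
    split_ifs with h
    · rw [map_zero]
    · obtain ⟨j, rfl⟩ := Nat.exists_eq_succ_of_ne_zero h
      rw [map_neg, ih j (by omega), neg_zero]

/-! ### functionals -/

/-- the `2n` functionals -/
noncomputable def Phi (n c : ℕ) : PowerSeries ℚ →ₗ[ℚ] ℚ :=
  if c < n then PowerSeries.coeff (c + 1) else (PowerSeries.coeff (c - n + 1)).comp (TTL ^ n)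

lemma Phi_lt (n c m : ℕ) (h : c < m) (f : PowerSeries ℚ) :
    Phi n c (PowerSeries.X ^ (m + 1) * f) = 0 := by
  unfold Phi
  split_ifs with hc
  · rw [PowerSeries.coeff_X_pow_mul', if_neg (by omega)]
  · rw [LinearMap.comp_apply, TTL_pow, show m + 1 = n + (m - n) + 1 by omega, TT_iter,
      PowerSeries.coeff_X_pow_mul', if_neg (by omega)]

lemma constantCoeff_geo : PowerSeries.constantCoeff geo = 1 := by
  have := congrArg PowerSeries.constantCoeff geo_mul
  simpa using this

lemma Phi_eq (n m : ℕ) (f : PowerSeries ℚ) :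
    Phi n m (PowerSeries.X ^ (m + 1) * f) = PowerSeries.constantCoeff f := by
  unfold Phi
  split_ifs with hc
  · rw [PowerSeries.coeff_X_pow_mul', if_pos le_rfl]; simp
  · rw [LinearMap.comp_apply, TTL_pow]
    conv_lhs => rw [show m + 1 = n + (m - n) + 1 by omega]
    rw [TT_iter, PowerSeries.coeff_X_pow_mul', if_pos le_rfl]
    simp [constantCoeff_geo]

/-! ### the triangular matrix -/

/-- rows ordered by order -/
noncomputable def rowS (m : ℕ) : PowerSeries ℚ := if m % 2 = 0 then Pm (m / 2) else Pp (m / 2 + 1)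

lemma rowS_eq (m : ℕ) : ∃ f : PowerSeries ℚ, rowS m = PowerSeries.X ^ (m + 1) * f ∧
    PowerSeries.constantCoeff f = 4 ^ (m + 1) := by
  unfold rowS
  split_ifs with h
  · refine ⟨_, ?_, Pm_lead (m / 2) |>.trans ?_⟩
    · rw [Pm_eq]
      rw [show 2 * (m / 2) + 1 = m + 1 by omega]
    · rw [show 2 * (m / 2) + 1 = m + 1 by omega]
  · refine ⟨_, ?_, Pp_lead (m / 2 + 1) |>.trans ?_⟩
    · rw [Pp_eq]
      rw [show 2 * (m / 2 + 1) = m + 1 by omega]
    · rw [show 2 * (m / 2 + 1) = m + 1 by omega]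

noncomputable def TM (n : ℕ) : Matrix (Fin (n + n)) (Fin (n + n)) ℚ :=
  Matrix.of fun m c => Phi n c (rowS m)

lemma det_TM (n : ℕ) : (TM n).det = ∏ m ∈ Finset.range (n + n), (4 : ℚ) ^ (m + 1) := by
  rw [Matrix.det_of_isUpperTriangular, ← Fin.prod_univ_eq_prod_range (fun m => (4 : ℚ) ^ (m + 1))]
  · refine Finset.prod_congr rfl fun m _ => ?_
    obtain ⟨f, h1, h2⟩ := rowS_eq m
    rw [TM, Matrix.of_apply, h1, Phi_eq, h2]
  · intro m c h
    obtain ⟨f, h1, h2⟩ := rowS_eq m
    rw [TM, Matrix.of_apply, h1, Phi_lt n c m h]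

/-! ### the block matrices -/

/-- functionals indexed by the sum type -/
noncomputable def PhS (n : ℕ) : Fin n ⊕ Fin n → (PowerSeries ℚ →ₗ[ℚ] ℚ)
  | Sum.inl j => PowerSeries.coeff (j.1 + 1)
  | Sum.inr j => (PowerSeries.coeff (j.1 + 1)).comp (TTL ^ n)

lemma PhS_eq (n : ℕ) (b : Fin n ⊕ Fin n) : PhS n b = Phi n (finSumFinEquiv b).1 := by
  rcases b with j | j
  · simp [PhS, Phi]
  · simp [PhS, Phi]

/-- the rows `P` -/
noncomputable def rowP (n : ℕ) : Fin n ⊕ Fin n → PowerSeries ℚ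
  | Sum.inl k => Pp (k.1 + 1)
  | Sum.inr k => Pm k.1

noncomputable def rowW (n : ℕ) : Fin n ⊕ Fin n → PowerSeries ℚ
  | Sum.inl i => om ^ (i.1 + 1)
  | Sum.inr i => omb ^ (i.1 + 1)

noncomputable def PM (n : ℕ) : Matrix (Fin n ⊕ Fin n) (Fin n ⊕ Fin n) ℚ :=
  Matrix.of fun a b => PhS n b (rowP n a)

noncomputable def MM (n : ℕ) : Matrix (Fin n ⊕ Fin n) (Fin n ⊕ Fin n) ℚ :=
  Matrix.of fun a b => PhS n b (rowW n a)

/-- parity index map -/
def pr (n : ℕ) : Fin n ⊕ Fin n → Fin (n + n)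
  | Sum.inl k => ⟨2 * k.1 + 1, by omega⟩
  | Sum.inr k => ⟨2 * k.1, by omega⟩

lemma pr_inj (n : ℕ) : Function.Injective (pr n) := by
  intro a b h
  rcases a with a | a <;> rcases b with b | b <;>
    simp only [pr, Fin.mk.injEq] at h
  · congr 1; ext; omega
  · omega
  · omega
  · congr 1; ext; omega

noncomputable def prE (n : ℕ) : Fin n ⊕ Fin n ≃ Fin (n + n) :=
  Equiv.ofBijective (pr n) ((Fintype.bijective_iff_injective_and_card _).2 ⟨pr_inj n, by simp⟩)

lemma rowP_eq (n : ℕ) (a : Fin n ⊕ Fin n) : rowP n a = rowS (pr n a).1 := by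
  rcases a with k | k
  · change Pp (k.1 + 1) = rowS (2 * k.1 + 1)
    rw [rowS, if_neg (by omega), show (2 * k.1 + 1) / 2 = k.1 by omega]
  · change Pm k.1 = rowS (2 * k.1)
    rw [rowS, if_pos (by omega), show (2 * k.1) / 2 = k.1 by omega]

lemma PM_eq (n : ℕ) : PM n = (TM n).submatrix (prE n) finSumFinEquiv := by
  ext a b
  simp only [PM, TM, Matrix.of_apply, Matrix.submatrix_apply, PhS_eq, rowP_eq]
  rfl

lemma abs_det_PM (n : ℕ) : |(PM n).det| = ∏ m ∈ Finset.range (n + n), (4 : ℚ) ^ (m + 1) := by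
  rw [PM_eq, Matrix.abs_det_submatrix_equiv_equiv, det_TM, abs_of_nonneg]
  positivity

/-! ### the transition matrix -/

noncomputable def QP (n : ℕ) : Matrix (Fin n) (Fin n) ℚ :=
  Matrix.of fun k i => (QQ k.1).2.1.coeff (i.1 + 1)

noncomputable def QM (n : ℕ) : Matrix (Fin n) (Fin n) ℚ :=
  Matrix.of fun k i => (QQ k.1).2.2.coeff (i.1 + 1)

lemma det_QP (n : ℕ) : (QP n).det = ∏ k ∈ Finset.range n, (aa k).1 := by
  rw [Matrix.det_of_isLowerTriangular, ← Fin.prod_univ_eq_prod_range (fun k => (aa k).1)]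
  · refine Finset.prod_congr rfl fun k _ => ?_
    rw [QP, Matrix.of_apply, (inv k.1).a1]
  · intro k i h
    have h' : k < i := h
    rw [QP, Matrix.of_apply]
    apply Polynomial.coeff_eq_zero_of_natDegree_lt
    have := (inv k.1).d1
    have h2 : k.1 < i.1 := h'
    omega

lemma det_QM (n : ℕ) : (QM n).det = ∏ k ∈ Finset.range n, (aa k).2 := by
  rw [Matrix.det_of_isLowerTriangular, ← Fin.prod_univ_eq_prod_range (fun k => (aa k).2)]
  · refine Finset.prod_congr rfl fun k _ => ?_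
    rw [QM, Matrix.of_apply, (inv k.1).a2]
  · intro k i h
    have h' : k < i := h
    rw [QM, Matrix.of_apply]
    apply Polynomial.coeff_eq_zero_of_natDegree_lt
    have := (inv k.1).d2
    have h2 : k.1 < i.1 := h'
    omega

lemma E_sum (n : ℕ) (p : Polynomial ℚ) (h0 : p.coeff 0 = 0) (hd : p.natDegree ≤ n)
    (x : PowerSeries ℚ) : Polynomial.aeval x p = ∑ i : Fin n, p.coeff (i.1 + 1) • x ^ (i.1 + 1) := by
  rw [Polynomial.aeval_eq_sum_range' (n := n + 1) (by omega), Finset.sum_range_succ', h0, zero_smul,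
    add_zero, ← Fin.sum_univ_eq_sum_range (fun i => p.coeff (i + 1) • x ^ (i + 1))]

noncomputable def LL (n : ℕ) : Matrix (Fin n ⊕ Fin n) (Fin n ⊕ Fin n) ℚ :=
  Matrix.fromBlocks (QP n) (QP n) (QM n) (-QM n)

lemma PM_mul (n : ℕ) : PM n = LL n * MM n := by
  ext a b
  rw [Matrix.mul_apply, Fintype.sum_sum_type]
  rcases a with k | k
  · have i1 := (inv k.1).e1
    have hd : (QQ k.1).2.1.natDegree ≤ n := ((inv k.1).d1).trans (by omega)
    have s1 := E_sum n _ (inv k.1).z1 hd om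
    have s2 := E_sum n _ (inv k.1).z1 hd omb
    simp only [PM, LL, MM, Matrix.of_apply, Matrix.fromBlocks_apply₁₁, Matrix.fromBlocks_apply₁₂,
      rowP, rowW, QP]
    unfold E Eb at i1
    rw [← i1, s1, s2, map_add, map_sum, map_sum]
    simp only [map_smul, smul_eq_mul]
  · have i1 := (inv k.1).e2
    have hd : (QQ k.1).2.2.natDegree ≤ n := ((inv k.1).d2).trans (by omega)
    have s1 := E_sum n _ (inv k.1).z2 hd om
    have s2 := E_sum n _ (inv k.1).z2 hd omb
    simp only [PM, LL, MM, Matrix.of_apply, Matrix.fromBlocks_apply₂₁, Matrix.fromBlocks_apply₂₂,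
      rowP, rowW, QM, Matrix.neg_apply]
    unfold E Eb at i1
    rw [← i1, s1, s2, map_sub, map_sum, map_sum]
    simp only [map_smul, smul_eq_mul, neg_mul, Finset.sum_neg_distrib]
    ring

lemma abs_det_LL (n : ℕ) : |(LL n).det| = 2 ^ n * |∏ k ∈ Finset.range n, ((aa k).1 * (aa k).2)| := by
  have h : LL n * Matrix.fromBlocks 1 (-1) 0 1 = Matrix.fromBlocks (QP n) 0 (QM n) (-(2 : ℚ) • QM n) := by
    rw [LL, Matrix.fromBlocks_multiply]
    congr 1
    · simp
    · simp
    · simp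
    · simp only [mul_neg, mul_one]
      ext i j; simp; ring
  have h2 := congrArg Matrix.det h
  rw [Matrix.det_mul, Matrix.det_fromBlocks_zero₂₁, Matrix.det_one, mul_one, mul_one,
    Matrix.det_fromBlocks_zero₁₂, Matrix.det_smul, Fintype.card_fin, det_QP, det_QM] at h2
  rw [h2, Finset.prod_mul_distrib, abs_mul, abs_mul, abs_mul, abs_pow]
  norm_num
  ring

/-! ### the target matrix -/

noncomputable def BM (n : ℕ) : Matrix (Fin n) (Fin n) ℚ :=
  Matrix.of (fun i j : Fin n => PowerSeries.coeff (j.1 + 1) (TT^[n] (om ^ (i.1 + 1))))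

noncomputable def CM (n : ℕ) : Matrix (Fin n) (Fin n) ℚ :=
  Matrix.of (fun i j : Fin n => PowerSeries.coeff (j.1 + 1) (omb ^ (i.1 + 1)))

noncomputable def AM (n : ℕ) : Matrix (Fin n) (Fin n) ℚ :=
  Matrix.of (fun i j : Fin n => PowerSeries.coeff (j.1 + 1) (om ^ (i.1 + 1)))

lemma MM_eq (n : ℕ) : MM n = Matrix.fromBlocks (AM n) (BM n) (CM n) 0 := by
  ext a b
  rcases a with i | i <;> rcases b with j | j
  · simp [MM, PhS, rowW, AM]
  · simp [MM, PhS, rowW, BM, TTL_pow]
  · simp [MM, PhS, rowW, CM]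
  · simp [MM, PhS, rowW, TT_iter_omb n i.1 i.2]

lemma abs_det_CM (n : ℕ) : |(CM n).det| = 1 := by
  have e : omb = PowerSeries.X * (-((1 - PowerSeries.X) * gm)) := by unfold omb; ring
  have c1 : PowerSeries.constantCoeff (-((1 - PowerSeries.X) * gm)) = -1 := by
    have h := congrArg PowerSeries.constantCoeff gm_mul
    simp at h
    simp [h]
  rw [Matrix.det_of_isUpperTriangular]
  · rw [Finset.abs_prod]
    refine Finset.prod_eq_one fun i _ => ?_
    rw [CM, Matrix.of_apply, e, mul_pow, PowerSeries.coeff_X_pow_mul', if_pos le_rfl]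
    rw [Nat.sub_self, PowerSeries.coeff_zero_eq_constantCoeff_apply, map_pow, c1, abs_pow]
    simp
  · intro i j h
    have h' : j < i := h
    have h2 : j.1 < i.1 := h'
    rw [CM, Matrix.of_apply, e, mul_pow, PowerSeries.coeff_X_pow_mul', if_neg (by omega)]

lemma abs_det_MM (n : ℕ) : |(MM n).det| = |(BM n).det| := by
  have h : (MM n).submatrix (Equiv.refl _) (Equiv.sumComm _ _) =
      Matrix.fromBlocks (BM n) (AM n) 0 (CM n) := by
    rw [MM_eq]
    ext a b
    rcases a with i | i <;> rcases b with j | j <;> simp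
  rw [← Matrix.abs_det_submatrix_equiv_equiv (Equiv.refl _) (Equiv.sumComm _ _) (MM n), h,
    Matrix.det_fromBlocks_zero₂₁, abs_mul, abs_det_CM, mul_one]

/-! ### the closed form -/

lemma aa_pos (n : ℕ) : 0 < (aa n).1 ∧ 0 < (aa n).2 := by
  induction n with
  | zero => norm_num [aa]
  | succ n ih =>
    have hn : (0 : ℚ) ≤ n := Nat.cast_nonneg n
    have h1 : 0 < al (n + 1) := by unfold al; push_cast; positivity
    have h2 : 0 < ga (n + 1) := by
      unfold ga; push_cast
      have h1 : 0 < (4 * ((n : ℚ) + 1) - 1) := by linarith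
      have h2 : 0 < (3 * ((n : ℚ) + 1) - 1) := by linarith
      positivity
    simp only [aa]
    exact ⟨div_pos ih.2 (by positivity), div_pos ih.1 (by positivity)⟩

/-- factors of `closed` -/
noncomputable def fac (k : ℕ) : ℚ := (6 * 4 ^ (k + 1) * (2 * k + 1) * (k + 1) * (k + 1).factorial *
    (4 * k + 1).factorial * (4 * k + 3).factorial /
    ((3 * k + 1).factorial * ((3 * k + 3).factorial) ^ 2) : ℚ)

lemma fac_succ (k : ℕ) : fac (k + 1) = fac k * (4096 * al (k + 1) * ga (k + 1)) := by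
  unfold fac al ga
  have f1 : (k + 1 + 1).factorial = (k + 2) * (k + 1).factorial := Nat.factorial_succ _
  have f2 : (4 * (k + 1) + 1).factorial = (4 * k + 5) * ((4 * k + 4) * ((4 * k + 3) * ((4 * k + 2) *
      (4 * k + 1).factorial))) := by
    rw [show 4 * (k + 1) + 1 = (4 * k + 4) + 1 by ring, Nat.factorial_succ, Nat.factorial_succ,
      Nat.factorial_succ, Nat.factorial_succ]
  have f3 : (4 * (k + 1) + 3).factorial = (4 * k + 7) * ((4 * k + 6) * ((4 * k + 5) * ((4 * k + 4) *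
      (4 * k + 3).factorial))) := by
    rw [show 4 * (k + 1) + 3 = (4 * k + 6) + 1 by ring, Nat.factorial_succ, Nat.factorial_succ,
      Nat.factorial_succ, Nat.factorial_succ]
  have f4 : (3 * (k + 1) + 1).factorial = (3 * k + 4) * ((3 * k + 3) * ((3 * k + 2) *
      (3 * k + 1).factorial)) := by
    rw [show 3 * (k + 1) + 1 = (3 * k + 3) + 1 by ring, Nat.factorial_succ, Nat.factorial_succ,
      Nat.factorial_succ]
  have f5 : (3 * (k + 1) + 3).factorial = (3 * k + 6) * ((3 * k + 5) * ((3 * k + 4) *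
      (3 * k + 3).factorial)) := by
    rw [show 3 * (k + 1) + 3 = (3 * k + 5) + 1 by ring, Nat.factorial_succ, Nat.factorial_succ,
      Nat.factorial_succ]
  rw [f1, f2, f3, f4, f5]
  have g1 : ((k + 1).factorial : ℚ) ≠ 0 := by exact_mod_cast Nat.factorial_ne_zero _
  have g2 : ((4 * k + 1).factorial : ℚ) ≠ 0 := by exact_mod_cast Nat.factorial_ne_zero _
  have g3 : ((4 * k + 3).factorial : ℚ) ≠ 0 := by exact_mod_cast Nat.factorial_ne_zero _
  have g4 : ((3 * k + 1).factorial : ℚ) ≠ 0 := by exact_mod_cast Nat.factorial_ne_zero _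
  have g5 : ((3 * k + 3).factorial : ℚ) ≠ 0 := by exact_mod_cast Nat.factorial_ne_zero _
  push_cast
  generalize ((k + 1).factorial : ℚ) = a1 at *
  generalize ((4 * k + 1).factorial : ℚ) = a2 at *
  generalize ((4 * k + 3).factorial : ℚ) = a3 at *
  generalize ((3 * k + 1).factorial : ℚ) = a4 at *
  generalize ((3 * k + 3).factorial : ℚ) = a5 at *
  have hk : (0 : ℚ) ≤ k := Nat.cast_nonneg k
  rw [show (3 * ((k : ℚ) + 1) - 1) = 3 * k + 2 by ring,
    show (4 * ((k : ℚ) + 1) - 1) = 4 * k + 3 by ring,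
    show (3 * ((k : ℚ) + 1) + 1) = 3 * k + 4 by ring,
    show (3 * ((k : ℚ) + 1) + 2) = 3 * k + 5 by ring,
    show (4 * ((k : ℚ) + 1) + 1) = 4 * k + 5 by ring,
    show (4 * ((k : ℚ) + 1) + 3) = 4 * k + 7 by ring,
    show (2 * ((k : ℚ) + 1) + 1) = 2 * k + 3 by ring]
  have e1 : (3 * (k : ℚ) + 2) ≠ 0 := by positivity
  have e2 : (3 * (k : ℚ) + 4) ≠ 0 := by positivity
  have e3 : (3 * (k : ℚ) + 5) ≠ 0 := by positivity
  have e4 : (3 * (k : ℚ) + 3) ≠ 0 := by positivity
  have e5 : (3 * (k : ℚ) + 6) ≠ 0 := by positivity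
  have e6 : ((k : ℚ) + 1) ≠ 0 := by positivity
  have e7 : ((k : ℚ) + 2) ≠ 0 := by positivity
  field_simp
  ring

lemma fac_eq (k : ℕ) : fac k * (2 * ((aa k).1 * (aa k).2)) = 4 ^ (4 * k + 3) := by
  induction k with
  | zero => norm_num [fac, aa]
  | succ k ih =>
    have ha := al_ne k
    have hg := ga_ne k
    rw [fac_succ]
    simp only [aa]
    have : fac k * (4096 * al (k + 1) * ga (k + 1)) *
        (2 * ((aa k).2 / (4 * ga (k + 1)) * ((aa k).1 / (4 * al (k + 1)))))
        = 256 * (fac k * (2 * ((aa k).1 * (aa k).2))) := by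
      field_simp
      ring
    rw [this, ih]
    rw [show 4 * (k + 1) + 3 = (4 * k + 3) + 4 by ring, pow_add]
    norm_num
    ring

lemma closed_mul (n : ℕ) : closed n * (2 ^ n * ∏ k ∈ Finset.range n, ((aa k).1 * (aa k).2))
    = ∏ m ∈ Finset.range (n + n), (4 : ℚ) ^ (m + 1) := by
  have hc : closed n = ∏ k ∈ Finset.range n, fac k := rfl
  rw [hc]
  induction n with
  | zero => simp
  | succ n ih =>
    rw [Finset.prod_range_succ, Finset.prod_range_succ, pow_succ,
      show n + 1 + (n + 1) = (n + n) + 1 + 1 by ring, Finset.prod_range_succ,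
      Finset.prod_range_succ, ← ih rfl]
    have h := fac_eq n
    have e : (4 : ℚ) ^ (n + n + 1) * 4 ^ (n + n + 1 + 1) = 4 ^ (4 * n + 3) := by
      rw [← pow_add]; congr 1; ring
    calc _ = (∏ x ∈ Finset.range n, fac x) * (2 ^ n * ∏ k ∈ Finset.range n, (aa k).1 * (aa k).2) *
          (fac n * (2 * ((aa n).1 * (aa n).2))) := by ring
      _ = _ := by rw [h, ← e]; ring

theorem det_formula (n : ℕ) :
    |(Matrix.of (fun i j : Fin n => PowerSeries.coeff (j.1 + 1) (TT^[n] (om ^ (i.1 + 1))))).det|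
      = closed n := by
  have h1 := abs_det_PM n
  rw [PM_mul, Matrix.det_mul, abs_mul, abs_det_LL, abs_det_MM] at h1
  have hpos : 0 < ∏ k ∈ Finset.range n, ((aa k).1 * (aa k).2) :=
    Finset.prod_pos fun k _ => mul_pos (aa_pos k).1 (aa_pos k).2
  rw [abs_of_pos hpos] at h1
  have h2 := closed_mul n
  have hne : (2 ^ n * ∏ k ∈ Finset.range n, ((aa k).1 * (aa k).2) : ℚ) ≠ 0 := by positivity
  apply mul_right_cancel₀ hne
  rw [h2, ← h1]
  unfold BM
  ring

end Pool.Agent.helper86.BZ
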