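import Pool.Agent.helper86.BZ.Ser

set_option autoImplicit false

/-! Base case: two hypergeometric evaluations via a second order ODE (MP_f6b435_co). -/

namespace Pool.Agent.helper86.BZ

open PowerSeries Pool.BZ

noncomputable def DD (f : PowerSeries ℚ) : PowerSeries ℚ :=
  C (1 / 4) * (1 + X ^ 2) * derivative ℚ f

lemma DD_add (f g : PowerSeries ℚ) : DD (f + g) = DD f + DD g := by
  unfold DD; rw [map_add]; ring

lemma DD_sub (f g : PowerSeries ℚ) : DD (f - g) = DD f - DD g := by
  unfold DD; rw [map_sub]; ring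

lemma DD_mul (f g : PowerSeries ℚ) : DD (f * g) = DD f * g + f * DD g := by
  unfold DD; rw [Derivation.leibniz]; simp only [smul_eq_mul]; ring

lemma DD_C (c : ℚ) : DD (C c) = 0 := by
  unfold DD; rw [derivative_C]; ring

lemma C4 : (C (1 / 4) : PowerSeries ℚ) * 4 = 1 := by
  rw [← map_ofNat (C : ℚ →+* PowerSeries ℚ) 4, ← map_mul]; norm_num

lemma d_ss : derivative ℚ ss = -(2 * X) * ss ^ 2 := by
  have h := congrArg (derivative ℚ) ss_mul
  rw [Derivation.leibniz, map_add, derivative_one, derivative_pow, derivative_X] at h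
  simp only [smul_eq_mul] at h
  have h2 : (1 + X ^ 2) * derivative ℚ ss = -(2 * X) * ss := by
    linear_combination h
  calc derivative ℚ ss = (ss * (1 + X ^ 2)) * derivative ℚ ss := by rw [ss_mul, one_mul]
    _ = ss * ((1 + X ^ 2) * derivative ℚ ss) := by ring
    _ = _ := by rw [h2]; ring

lemma d_X2 : derivative ℚ (X ^ 2 : PowerSeries ℚ) = 2 * X := by
  rw [derivative_pow, derivative_X]; simp

lemma d_X4 : derivative ℚ (X ^ 4 : PowerSeries ℚ) = 4 * X ^ 3 := by
  rw [derivative_pow, derivative_X]; simp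

lemma d_4 : derivative ℚ (4 : PowerSeries ℚ) = 0 := by
  have := derivative_C (R := ℚ) (r := 4)
  rwa [map_ofNat] at this

lemma d_6 : derivative ℚ (6 : PowerSeries ℚ) = 0 := by
  have := derivative_C (R := ℚ) (r := 6)
  rwa [map_ofNat] at this

lemma d_ss2 : derivative ℚ (ss ^ 2) = -(4 * X) * ss ^ 3 := by
  rw [pow_two, Derivation.leibniz, d_ss]; simp only [smul_eq_mul]; ring

lemma DD_rr : DD rr = kap := by
  unfold DD rr kap
  rw [Derivation.leibniz, Derivation.leibniz, Derivation.leibniz, map_sub, derivative_one, d_X2, d_ss2,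
    derivative_X, d_4]
  simp only [smul_eq_mul]
  have h := ss_mul
  have h4 := C4
  linear_combination ((1 - 6 * X ^ 2 + X ^ 4) * ss ^ 2) * h4
    - (16 * C (1 / 4) * X ^ 2 * ss ^ 2 * (1 - X ^ 2)) * h

lemma DD_kap : DD kap = -rr := by
  unfold DD rr kap
  rw [Derivation.leibniz, d_ss2, map_add, map_sub, derivative_one, Derivation.leibniz, d_X2, d_X4, d_6]
  simp only [smul_eq_mul]
  have h := ss_mul
  have h4 := C4
  linear_combination (-4 * X * (1 - X ^ 2) * ss ^ 2) * h4
    - (4 * C (1 / 4) * X * ss ^ 2 * (1 - 6 * X ^ 2 + X ^ 4)) * h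

lemma kap_sq : kap ^ 2 = 1 - uu := by
  unfold kap uu rr
  have h := ss_mul
  have : (1 : PowerSeries ℚ) = (ss * (1 + X ^ 2)) ^ 4 := by rw [h]; ring
  calc ((1 - 6 * X ^ 2 + X ^ 4) * ss ^ 2) ^ 2 = (ss * (1 + X ^ 2)) ^ 4
        - (4 * X * (1 - X ^ 2) * ss ^ 2) ^ 2 := by ring
    _ = _ := by rw [h]; ring

lemma DD_uu : DD uu = 2 * rr * kap := by
  unfold uu
  rw [pow_two, DD_mul, DD_rr]; ring

lemma DD_Psi (f : PowerSeries ℚ) : DD (Psi f) = 2 * rr * kap * Psi (derivative ℚ f) := by
  unfold DD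
  rw [Psi_apply, derivative_subst hasSubst_uu, ← Psi_apply, ← DD_uu]
  unfold DD
  ring

/-- uniqueness -/
lemma uniq (h : PowerSeries ℚ) (h0 : coeff 0 h = 0) (h1 : coeff 1 h = 0)
    (hD : 4 * DD (DD h) = -h) : h = 0 := by
  have e : derivative ℚ (derivative ℚ h) = -(4 * h) - 2 * (X * derivative ℚ h)
      - 2 * (X ^ 3 * derivative ℚ h) - 2 * (X ^ 2 * derivative ℚ (derivative ℚ h))
      - X ^ 4 * derivative ℚ (derivative ℚ h) := by
    have h4 := C4
    have hc : derivative ℚ (C (1 / 4) : PowerSeries ℚ) = 0 := derivative_C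
    have hD' := hD
    unfold DD at hD'
    rw [Derivation.leibniz, Derivation.leibniz, map_add, derivative_one, d_X2, hc] at hD'
    simp only [smul_eq_mul] at hD'
    have h5 : (1 + X ^ 2) * ((1 + X ^ 2) * derivative ℚ (derivative ℚ h) + 2 * X * derivative ℚ h)
        = -(4 * h) := by
      linear_combination 4 * hD' - ((1 + X ^ 2) * ((1 + X ^ 2) * derivative ℚ (derivative ℚ h)
        + 2 * X * derivative ℚ h) * (4 * C (1 / 4) + 1)) * h4
    linear_combination h5
  have key : ∀ n, coeff n h = 0 := by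
    intro n
    induction n using Nat.strong_induction_on with
    | _ n ih =>
      match n with
      | 0 => exact h0
      | 1 => exact h1
      | n + 2 =>
        have ec := congrArg (coeff n) e
        have d1 : ∀ j, j ≤ n → coeff j (derivative ℚ h) = 0 := by
          intro j hj
          rw [coeff_derivative, ih (j + 1) (by omega), zero_mul]
        have d2 : ∀ j, j < n → coeff j (derivative ℚ (derivative ℚ h)) = 0 := by
          intro j hj
          rw [coeff_derivative, d1 (j + 1) (by omega), zero_mul]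
        have c2 : ∀ f : PowerSeries ℚ, coeff n (2 * f) = 2 * coeff n f := by
          intro f
          rw [← map_ofNat (C : ℚ →+* PowerSeries ℚ) 2, coeff_C_mul]
        have c4 : ∀ f : PowerSeries ℚ, coeff n (4 * f) = 4 * coeff n f := by
          intro f
          rw [← map_ofNat (C : ℚ →+* PowerSeries ℚ) 4, coeff_C_mul]
        have cX : ∀ (k : ℕ) (f : PowerSeries ℚ), (∀ j, j < n + 1 - k → coeff j f = 0) →
            coeff n (X ^ k * f) = 0 := by
          intro k f hf
          rw [coeff_X_pow_mul']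
          split_ifs with hk
          · exact hf _ (by omega)
          · rfl
        have x1 : coeff n (X * derivative ℚ h) = 0 := by
          have := cX 1 (derivative ℚ h) (fun j hj => d1 j (by omega))
          rwa [pow_one] at this
        have x3 := cX 3 (derivative ℚ h) (fun j hj => d1 j (by omega))
        have x2 := cX 2 (derivative ℚ (derivative ℚ h)) (fun j hj => d2 j (by omega))
        have x4 := cX 4 (derivative ℚ (derivative ℚ h)) (fun j hj => d2 j (by omega))
        rw [map_sub, map_sub, map_sub, map_sub, map_neg, c4, c2, c2, c2, x1, x2, x3, x4,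
          ih n (by omega), coeff_derivative, coeff_derivative] at ec
        have hn : (0 : ℚ) ≤ n := Nat.cast_nonneg n
        have hp : (((n + 1 : ℕ) : ℚ) + 1) * ((n : ℚ) + 1) ≠ 0 := by positivity
        have : coeff (n + 2) h * ((((n + 1 : ℕ) : ℚ) + 1) * ((n : ℚ) + 1)) = 0 := by
          rw [← mul_assoc]; rw [ec]; ring
        exact (mul_eq_zero.mp this).resolve_right hp
  ext n
  rw [key n, map_zero]

/-! ### the two series -/

noncomputable def G1 : PowerSeries ℚ := 1 - C (1 / 8) * (X * Hm 1)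
noncomputable def G2 : PowerSeries ℚ := 1 + C (1 / 8) * (X * Hp 1)

lemma coeff_G1_succ (k : ℕ) : coeff (k + 1) G1 = -(Cm 1 k / 8) := by
  unfold G1
  rw [map_sub, coeff_C_mul, coeff_succ_X_mul, Hm, coeff_mk, coeff_one]; simp; ring

lemma coeff_G1_zero : coeff 0 G1 = 1 := by
  unfold G1; simp

lemma coeff_G2_succ (k : ℕ) : coeff (k + 1) G2 = Cp 1 k / 8 := by
  unfold G2
  rw [map_add, coeff_C_mul, coeff_succ_X_mul, Hp, coeff_mk, coeff_one]; simp; ring

lemma coeff_G2_zero : coeff 0 G2 = 1 := by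
  unfold G2; simp

lemma rec_G1 (n : ℕ) : coeff (n + 1) G1 * (((n : ℚ) + 1) * (n + 1 / 2)) =
    coeff n G1 * ((n : ℚ) ^ 2 - 1 / 16) := by
  cases n with
  | zero => rw [coeff_G1_succ, coeff_G1_zero]; simp [Cm]; norm_num
  | succ k =>
    rw [coeff_G1_succ, coeff_G1_succ, Cm_succ]
    have hk : (0 : ℚ) ≤ k := Nat.cast_nonneg k
    have h1 : ((k : ℚ) + 1) ≠ 0 := by positivity
    have h2 : ((k : ℚ) + 2) ≠ 0 := by positivity
    have h3 : (2 * (k : ℚ) + 3) ≠ 0 := by positivity
    push_cast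
    rw [show (3 * (1 : ℚ)) / 2 + k = (2 * k + 3) / 2 by ring,
      show (3 * (1 : ℚ) + 1) / 2 + k = k + 2 by ring]
    field_simp
    ring

lemma rec_G2 (n : ℕ) : coeff (n + 1) G2 * (((n : ℚ) + 1) * (n + 3 / 2)) =
    coeff n G2 * ((n : ℚ) ^ 2 + n + 3 / 16) := by
  cases n with
  | zero => rw [coeff_G2_succ, coeff_G2_zero]; simp [Cp]; norm_num
  | succ k =>
    rw [coeff_G2_succ, coeff_G2_succ, Cp_succ]
    have hk : (0 : ℚ) ≤ k := Nat.cast_nonneg k
    have h1 : ((k : ℚ) + 1) ≠ 0 := by positivity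
    have h2 : ((k : ℚ) + 2) ≠ 0 := by positivity
    have h3 : (2 * (k : ℚ) + 5) ≠ 0 := by positivity
    push_cast
    rw [show (3 * (1 : ℚ) + 1) / 2 + k = k + 2 by ring,
      show (3 * (1 : ℚ) + 2) / 2 + k = (2 * k + 5) / 2 by ring]
    field_simp
    ring

lemma c_d (f : PowerSeries ℚ) (n : ℕ) : coeff n (derivative ℚ f) = coeff (n + 1) f * (n + 1) :=
  coeff_derivative f n

lemma c_Xd (f : PowerSeries ℚ) (n : ℕ) : coeff n (X * derivative ℚ f) = coeff n f * n := by
  cases n with
  | zero => simp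
  | succ n => rw [coeff_succ_X_mul, c_d]; push_cast; ring

lemma c_Xdd (f : PowerSeries ℚ) (n : ℕ) : coeff n (X * derivative ℚ (derivative ℚ f))
    = coeff (n + 1) f * ((n + 1) * n) := by
  rw [c_Xd, c_d]; ring

lemma c_XXdd (f : PowerSeries ℚ) (n : ℕ) : coeff n (X * (X * derivative ℚ (derivative ℚ f)))
    = coeff n f * (n * (n - 1)) := by
  cases n with
  | zero => simp
  | succ n => rw [coeff_succ_X_mul, c_Xdd]; push_cast; ring

/-- ODE of `G1` -/
lemma ode_G1 : X * derivative ℚ (derivative ℚ G1) - X * (X * derivative ℚ (derivative ℚ G1))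
    + C (1 / 2) * derivative ℚ G1 - X * derivative ℚ G1 + C (1 / 16) * G1 = 0 := by
  ext n
  have h := rec_G1 n
  rw [map_add, map_sub, map_add, map_sub, coeff_C_mul, coeff_C_mul, c_Xdd, c_XXdd, c_Xd, c_d,
    map_zero]
  linear_combination h

/-- ODE of `G2` -/
lemma ode_G2 : X * derivative ℚ (derivative ℚ G2) - X * (X * derivative ℚ (derivative ℚ G2))
    + C (3 / 2) * derivative ℚ G2 - C 2 * (X * derivative ℚ G2) - C (3 / 16) * G2 = 0 := by
  ext n
  have h := rec_G2 n
  rw [map_sub, map_sub, map_add, map_sub, coeff_C_mul, coeff_C_mul, coeff_C_mul, c_Xdd, c_XXdd,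
    c_Xd, c_d, map_zero]
  linear_combination h

lemma C_two : (C 2 : PowerSeries ℚ) = 2 := map_ofNat _ 2

lemma Chalf : (C (1 / 2) : PowerSeries ℚ) * 2 = 1 := by
  rw [← map_ofNat (C : ℚ →+* PowerSeries ℚ) 2, ← map_mul]; norm_num

lemma C3half : (C (3 / 2) : PowerSeries ℚ) * 2 = 3 := by
  rw [← map_ofNat (C : ℚ →+* PowerSeries ℚ) 2, ← map_mul, ← map_ofNat (C : ℚ →+* PowerSeries ℚ) 3]
  norm_num

lemma C16 : (C (1 / 16) : PowerSeries ℚ) * 16 = 1 := by
  rw [← map_ofNat (C : ℚ →+* PowerSeries ℚ) 16, ← map_mul]; norm_num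

lemma C316 : (C (3 / 16) : PowerSeries ℚ) * 16 = 3 := by
  rw [← map_ofNat (C : ℚ →+* PowerSeries ℚ) 16, ← map_mul, ← map_ofNat (C : ℚ →+* PowerSeries ℚ) 3]
  norm_num

lemma C8 : (C (1 / 8) : PowerSeries ℚ) * 8 = 1 := by
  rw [← map_ofNat (C : ℚ →+* PowerSeries ℚ) 8, ← map_mul]; norm_num

lemma DD2_G1 : 4 * DD (DD (Psi G1)) = -Psi G1 := by
  have o := congrArg Psi ode_G1
  simp only [map_add, map_sub, map_mul, Psi_X, Psi_C, map_zero] at o
  have e2 := kap_sq
  have e1 := Chalf
  have e3 := C16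
  rw [DD_Psi, DD_mul, DD_mul, DD_mul, DD_Psi, DD_rr, DD_kap]
  have h2 : DD 2 = 0 := by
    rw [← C_two]; exact DD_C 2
  rw [h2]
  have hu : uu = rr ^ 2 := rfl
  rw [hu] at o e2
  generalize Psi (derivative ℚ (derivative ℚ G1)) = A at *
  generalize Psi (derivative ℚ G1) = B at *
  generalize Psi G1 = G at *
  generalize rr = r at *
  generalize kap = k at *
  linear_combination 16 * o + (16 * r ^ 2 * A + 8 * B) * e2 - 8 * B * e1 - G * e3

lemma DD2_G2 : 4 * DD (DD (rr * Psi G2)) = -(rr * Psi G2) := by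
  have o := congrArg Psi ode_G2
  simp only [map_add, map_sub, map_mul, Psi_X, Psi_C, map_zero] at o
  have e2 := kap_sq
  have e1 := C3half
  have e3 := C316
  have e0 := C_two
  have h2 : DD 2 = 0 := by
    rw [← C_two]; exact DD_C 2
  rw [DD_mul, DD_add, DD_mul, DD_mul, DD_Psi, DD_mul, DD_mul, DD_mul, DD_Psi, DD_rr, DD_kap,
    h2]
  have hu : uu = rr ^ 2 := rfl
  rw [hu] at o e2
  generalize Psi (derivative ℚ (derivative ℚ G2)) = A at *
  generalize Psi (derivative ℚ G2) = B at *
  generalize Psi G2 = G at *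
  generalize rr = r at *
  generalize kap = k at *
  linear_combination 16 * r * o + (16 * r ^ 3 * A + 24 * r * B) * e2 - 8 * r * B * e1 + r * G * e3
    + 16 * r ^ 3 * B * e0

lemma DD_t1 : DD ((1 - X ^ 2) * ss) = -(X * ss) := by
  unfold DD
  rw [Derivation.leibniz, map_sub, derivative_one, d_X2, d_ss]
  simp only [smul_eq_mul]
  have h := ss_mul
  have h4 := C4
  linear_combination (-(X * ss)) * h4
    - (2 * C (1 / 4) * X * (1 - X ^ 2) * ss) * h

lemma DD_Xss : DD (4 * (X * ss)) = (1 - X ^ 2) * ss := by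
  unfold DD
  rw [Derivation.leibniz, Derivation.leibniz, d_4, d_ss, derivative_X]
  simp only [smul_eq_mul]
  have h := ss_mul
  have h4 := C4
  linear_combination ((1 - X ^ 2) * ss) * h4
    - (8 * C (1 / 4) * X ^ 2 * ss) * h

lemma Psi_G1 : Psi G1 = (1 - X ^ 2) * ss := by
  have hss : (1 - X ^ 2) * ss = 1 - X ^ 2 * (2 * ss) := by linear_combination ss_mul
  have hG : Psi G1 = 1 - X ^ 2 * (C (1 / 8) * (UU * Psi (Hm 1))) := by
    unfold G1
    rw [map_sub, map_one, map_mul, map_mul, Psi_C, Psi_X, uu_eq]; ring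
  have hz : Psi G1 - (1 - X ^ 2) * ss = 0 := by
    apply uniq
    · rw [hss, hG, map_sub, map_sub, map_sub, coeff_X_pow_mul', coeff_X_pow_mul']
      simp
    · rw [hss, hG, map_sub, map_sub, map_sub, coeff_X_pow_mul', coeff_X_pow_mul']
      simp
    · rw [DD_sub, DD_sub, mul_sub, DD2_G1, DD_t1]
      have h := DD_Xss
      have h4 : DD (4 * (X * ss)) = 4 * DD (X * ss) := by
        have : DD 4 = 0 := by
          have := DD_C 4
          rwa [map_ofNat] at this
        rw [DD_mul, this]; ring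
      have hneg : DD (-(X * ss)) = - DD (X * ss) := by
        unfold DD; rw [map_neg]; ring
      rw [hneg]
      linear_combination h - h4 * 1 + 0 * h
  exact sub_eq_zero.mp hz

lemma Psi_G2 : rr * Psi G2 = 4 * (X * ss) := by
  have hss : ss = 1 - X ^ 2 * ss := by linear_combination ss_mul
  have hz : rr * Psi G2 - 4 * (X * ss) = 0 := by
    have e : rr * Psi G2 - 4 * (X * ss) = X * (4 * (1 - X ^ 2) * ss ^ 2 * Psi G2 - 4 * ss) := by
      unfold rr; ring
    apply uniq
    · rw [e]; simp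
    · rw [e, show (1 : ℕ) = 0 + 1 from rfl, coeff_succ_X_mul, coeff_zero_eq_constantCoeff_apply]
      have : constantCoeff G2 = 1 := by
        have := coeff_G2_zero
        rwa [coeff_zero_eq_constantCoeff_apply] at this
      simp only [map_mul, map_sub, map_pow, constantCoeff_ss, map_ofNat, map_one, constantCoeff_X,
        constantCoeff_Psi, this]
      norm_num
    · rw [DD_sub, DD_sub, mul_sub, DD2_G2, DD_Xss, DD_t1]
      ring
  exact sub_eq_zero.mp hz

lemma Hp_zero : Hp 0 = 1 := by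
  ext n
  cases n with
  | zero => simp [Hp, Cp]
  | succ n => rw [Hp, coeff_mk, relA, coeff_one]; simp

lemma Pp_zero : Pp 0 = 1 := by
  unfold Pp; rw [Hp_zero]; simp

lemma geo_gm : geo * gm * (1 - X ^ 2) = 1 := by
  have h1 := geo_mul
  have h2 := gm_mul
  calc geo * gm * (1 - X ^ 2) = (geo * (1 - X)) * (gm * (1 + X)) := by ring
    _ = 1 := by rw [h1, h2, one_mul]

lemma sum_g : (geo + gm) = 2 * (geo * gm) := by
  have h1 := geo_mul
  have h2 := gm_mul
  linear_combination (-geo) * h2 - gm * h1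

lemma dif_g : (geo - gm) = 2 * X * (geo * gm) := by
  have h1 := geo_mul
  have h2 := gm_mul
  linear_combination (-geo) * h2 + gm * h1

lemma Pp_one : Pp 1 = 4 * (om + omb) := by
  have h := Psi_G2
  have e : Psi G2 = 1 + C (1 / 8) * Pp 1 := by
    unfold G2 Pp
    rw [map_add, map_one, map_mul, Psi_C, pow_one]
  rw [e] at h
  apply mul_left_cancel₀ rr_ne
  have h8 := C8
  have o1 := one_add_om
  have o2 := one_add_omb
  have s1 := sum_g
  have g1 := geo_gm
  have s2 := ss_mul
  have key : rr * ((1 + X ^ 2) * (geo + gm)) = 8 * (X * ss) := by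
    rw [s1]
    have : rr * ((1 + X ^ 2) * (2 * (geo * gm))) = 8 * X * ss * (ss * (1 + X ^ 2)) *
        (geo * gm * (1 - X ^ 2)) := by
      unfold rr; ring
    rw [this, s2, g1]; ring
  linear_combination 8 * h - rr * Pp 1 * h8 - 4 * rr * (o1 + o2) - 4 * key

lemma Pm_zero : Pm 0 = 2 * (om - omb) := by
  have h := Psi_G1
  have e : rr * Pm 0 = uu * Psi (Hm 1) := by
    unfold Pm uu; rw [pow_zero, one_mul]; ring
  have e2 : Psi G1 = 1 - C (1 / 8) * (rr * Pm 0) := by
    unfold G1
    rw [map_sub, map_one, map_mul, map_mul, Psi_C, Psi_X, e]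
  rw [e2] at h
  apply mul_left_cancel₀ rr_ne
  have h8 := C8
  have o1 := one_add_om
  have o2 := one_add_omb
  have s1 := dif_g
  have g1 := geo_gm
  have s2 := ss_mul
  have key : rr * ((1 + X ^ 2) * (geo - gm)) = 8 * (X ^ 2 * ss) := by
    rw [s1]
    have : rr * ((1 + X ^ 2) * (2 * X * (geo * gm))) = 8 * X ^ 2 * ss * (ss * (1 + X ^ 2)) *
        (geo * gm * (1 - X ^ 2)) := by
      unfold rr; ring
    rw [this, s2, g1]; ring
  linear_combination (-8) * h - rr * Pm 0 * h8 - 2 * rr * (o1 - o2) - 2 * key - 8 * s2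

end Pool.Agent.helper86.BZ
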