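import Mathlib

set_option autoImplicit false

/-! Contiguous hypergeometric series for the type-112 benzel determinant (MP_f6b435_co). -/

namespace Pool.Agent.helper86.BZ

open PowerSeries

/-- coefficients of `H⁺ n` -/
def Cp (n : ℕ) : ℕ → ℚ
  | 0 => 1
  | k + 1 => Cp n k * (((n : ℚ) + k) * (n + 1 / 4 + k) * (n + 3 / 4 + k) /
      ((k + 1) * ((3 * n + 1) / 2 + k) * ((3 * n + 2) / 2 + k)))

/-- coefficients of `H⁻ n` -/
def Cm (n : ℕ) : ℕ → ℚ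
  | 0 => 1
  | k + 1 => Cm n k * (((n : ℚ) + k) * (n - 1 / 4 + k) * (n + 1 / 4 + k) /
      ((k + 1) * (3 * n / 2 + k) * ((3 * n + 1) / 2 + k)))

noncomputable def Hp (n : ℕ) : PowerSeries ℚ := PowerSeries.mk (Cp n)
noncomputable def Hm (n : ℕ) : PowerSeries ℚ := PowerSeries.mk (Cm n)

def al (n : ℕ) : ℚ := (4 * n + 1) * (2 * n + 1) / (6 * (3 * n + 1) * (3 * n + 2))
def ga (n : ℕ) : ℚ := (4 * n - 1) * (4 * n + 1) * (4 * n + 3) * (2 * n + 1) /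
  (72 * (3 * n - 1) * (3 * n + 1) ^ 2 * (3 * n + 2))
/-- `b (n+1)` in the notes -/
def bb (n : ℕ) : ℚ := Cm (n + 1) 1 - Cp n 1

lemma Cp_succ (n k : ℕ) : Cp n (k + 1) = Cp n k * (((n : ℚ) + k) * (n + 1 / 4 + k) *
    (n + 3 / 4 + k) / ((k + 1) * ((3 * n + 1) / 2 + k) * ((3 * n + 2) / 2 + k))) := rfl

lemma Cm_succ (n k : ℕ) : Cm n (k + 1) = Cm n k * (((n : ℚ) + k) * (n - 1 / 4 + k) *
    (n + 1 / 4 + k) / ((k + 1) * (3 * n / 2 + k) * ((3 * n + 1) / 2 + k))) := rfl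

/-- `Cp (n) (k+1)` through `Cm (n+1) k` -/
lemma relA (n k : ℕ) : Cp n (k + 1) = Cm (n + 1) k * ((n : ℚ) * (n + 1 / 4) * (n + 3 / 4 + k) /
    ((k + 1) * ((3 * n + 1) / 2) * ((3 * n + 2) / 2))) := by
  induction k with
  | zero => simp [Cp, Cm]
  | succ k ih =>
    rw [Cp_succ, ih, Cm_succ]
    have hn : (0 : ℚ) ≤ n := Nat.cast_nonneg n
    have hk : (0 : ℚ) ≤ k := Nat.cast_nonneg k
    have h1 : ((k : ℚ) + 1) ≠ 0 := by positivity
    have h2 : ((k : ℚ) + 1 + 1) ≠ 0 := by positivity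
    have h3 : (3 * (n : ℚ) + 1) / 2 ≠ 0 := by positivity
    have h4 : (3 * (n : ℚ) + 2) / 2 ≠ 0 := by positivity
    have h5 : (3 * (n : ℚ) + 1) / 2 + (k + 1) ≠ 0 := by positivity
    have h6 : (3 * (n : ℚ) + 2) / 2 + (k + 1) ≠ 0 := by positivity
    push_cast
    rw [show (3 * ((n : ℚ) + 1)) / 2 + k = (3 * (n : ℚ) + 1) / 2 + (k + 1) by ring,
      show (3 * ((n : ℚ) + 1) + 1) / 2 + k = (3 * (n : ℚ) + 2) / 2 + (k + 1) by ring]
    field_simp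
    ring

/-- `Cp n k` through `Cm n k`, `n ≥ 1` -/
lemma relB (n : ℕ) (hn : 1 ≤ n) (k : ℕ) : Cp n k = Cm n k * (((n : ℚ) - 1 / 4 + k) *
    (3 * n / 2) / ((n - 1 / 4) * (3 * n / 2 + k))) := by
  have hn' : (1 : ℚ) ≤ n := by exact_mod_cast hn
  have h0 : (n : ℚ) - 1 / 4 ≠ 0 := by intro h'; linarith
  have h0' : 4 * (n : ℚ) - 1 ≠ 0 := by intro h'; linarith
  have h0'' : (n : ℚ) * 4 - 1 ≠ 0 := by intro h'; linarith
  have h1 : (3 * (n : ℚ) / 2) ≠ 0 := by positivity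
  induction k with
  | zero => simp [Cp, Cm]; field_simp
  | succ k ih =>
    rw [Cp_succ, ih, Cm_succ]
    have hk : (0 : ℚ) ≤ k := Nat.cast_nonneg k
    have h2 : ((k : ℚ) + 1) ≠ 0 := by positivity
    have h3 : 3 * (n : ℚ) / 2 + k ≠ 0 := by positivity
    have h4 : (3 * (n : ℚ) + 1) / 2 + k ≠ 0 := by positivity
    have h5 : (3 * (n : ℚ)) / 2 + (k + 1) ≠ 0 := by positivity
    push_cast
    rw [show (3 * (n : ℚ) + 2) / 2 + k = 3 * (n : ℚ) / 2 + (k + 1) by ring]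
    field_simp
    ring

/-- `Cm (n+1) k` through `Cm n (k+1)`, `n ≥ 1` -/
lemma relC (n : ℕ) (hn : 1 ≤ n) (k : ℕ) : Cm (n + 1) k = Cm n (k + 1) * ((k + 1) *
    ((3 * n + 1) / 2) * (3 * n / 2) * (3 * n / 2 + 1) /
    ((n : ℚ) * (n - 1 / 4) * (n + 1 / 4) * (3 * n / 2 + k + 1))) := by
  have hn' : (1 : ℚ) ≤ n := by exact_mod_cast hn
  have h0 : (n : ℚ) - 1 / 4 ≠ 0 := by intro h'; linarith
  have h0' : 4 * (n : ℚ) - 1 ≠ 0 := by intro h'; linarith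
  have h0'' : (n : ℚ) * 4 - 1 ≠ 0 := by intro h'; linarith
  have h00 : (n : ℚ) ≠ 0 := by positivity
  have h01 : (n : ℚ) + 1 / 4 ≠ 0 := by positivity
  have h1 : (3 * (n : ℚ) / 2) ≠ 0 := by positivity
  have h1' : (3 * (n : ℚ) / 2 + 1) ≠ 0 := by positivity
  have h1'' : ((3 * (n : ℚ) + 1) / 2) ≠ 0 := by positivity
  induction k with
  | zero =>
    simp only [Cm]
    push_cast
    have h7 : (3 * (n : ℚ) / 2 + 0 + 1) ≠ 0 := by positivity
    field_simp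
    ring
  | succ k ih =>
    rw [Cm_succ (n + 1) k, ih, Cm_succ n (k + 1)]
    have hk : (0 : ℚ) ≤ k := Nat.cast_nonneg k
    have h2 : ((k : ℚ) + 1) ≠ 0 := by positivity
    have h2' : ((k : ℚ) + 1 + 1) ≠ 0 := by positivity
    have h3 : 3 * (n : ℚ) / 2 + k + 1 ≠ 0 := by positivity
    have h4 : (3 * (n : ℚ) + 1) / 2 + (k + 1) ≠ 0 := by positivity
    have h5 : (3 * (n : ℚ)) / 2 + (k + 1) + 1 ≠ 0 := by positivity
    have h6 : (3 * (n : ℚ)) / 2 + (k + 1) ≠ 0 := by positivity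
    push_cast
    rw [show (3 * ((n : ℚ) + 1)) / 2 + k = (3 * (n : ℚ) + 1) / 2 + (k + 1) by ring,
      show (3 * ((n : ℚ) + 1) + 1) / 2 + k = (3 * (n : ℚ)) / 2 + (k + 1) + 1 by ring]
    field_simp
    ring

/-- (H1) -/
lemma H1 (n : ℕ) (hn : 1 ≤ n) : Hp n = Hm n + C (al n) * X * Hm (n + 1) := by
  have hn' : (1 : ℚ) ≤ n := by exact_mod_cast hn
  have h0 : (n : ℚ) - 1 / 4 ≠ 0 := by intro h'; linarith
  have h0' : 4 * (n : ℚ) - 1 ≠ 0 := by intro h'; linarith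
  have h0'' : (n : ℚ) * 4 - 1 ≠ 0 := by intro h'; linarith
  have h00 : (n : ℚ) ≠ 0 := by positivity
  have h01 : (n : ℚ) + 1 / 4 ≠ 0 := by positivity
  ext k
  cases k with
  | zero => simp [Hp, Hm, Cp, Cm, mul_assoc]
  | succ k =>
    have hk : (0 : ℚ) ≤ k := Nat.cast_nonneg k
    rw [map_add, mul_assoc, coeff_C_mul, coeff_succ_X_mul]
    simp only [Hp, Hm, coeff_mk]
    rw [relB n hn (k + 1), relC n hn k, al]
    have h3 : 3 * (n : ℚ) / 2 + k + 1 ≠ 0 := by positivity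
    have h3' : 3 * (n : ℚ) / 2 + (k + 1) ≠ 0 := by positivity
    have h4 : (3 * (n : ℚ) + 1) ≠ 0 := by positivity
    have h5 : (3 * (n : ℚ) + 2) ≠ 0 := by positivity
    push_cast
    field_simp
    ring

/-- (H2) with `n+1` -/
lemma H2 (n : ℕ) : Hm (n + 1) = Hp n + C (bb n) * X * Hp (n + 1) +
    C (ga (n + 1)) * X ^ 2 * Hp (n + 2) := by
  have hn : (0 : ℚ) ≤ n := Nat.cast_nonneg n
  ext k
  match k with
  | 0 => simp [Hp, Hm, Cp, Cm, mul_assoc]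
  | 1 =>
    rw [map_add, map_add, mul_assoc, coeff_C_mul, coeff_succ_X_mul, mul_assoc, coeff_C_mul,
      coeff_X_pow_mul', if_neg (by norm_num)]
    simp only [Hp, Hm, coeff_mk, bb]
    simp [Cp]
  | k + 2 =>
    have hk : (0 : ℚ) ≤ k := Nat.cast_nonneg k
    rw [map_add, map_add, mul_assoc, coeff_C_mul, coeff_succ_X_mul, mul_assoc, coeff_C_mul,
      coeff_X_pow_mul]
    simp only [Hp, Hm, coeff_mk]
    have e1 := relA n (k + 1)
    have e2 := relB (n + 1) (by omega) (k + 1)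
    have e3 := relB (n + 2) (by omega) k
    have e4 := relC (n + 1) (by omega) k
    have e5 := Cm_succ (n + 1) (k + 1)
    rw [e3, e4, e5, e1, e2, bb, ga]
    simp only [Cm, Cp]
    have h3 : 3 * ((n : ℚ) + 1) / 2 + (k + 1) ≠ 0 := by positivity
    have h3' : 3 * ((n : ℚ) + 1) / 2 + k + 1 ≠ 0 := by positivity
    have h4 : (3 * ((n : ℚ) + 1) + 1) ≠ 0 := by positivity
    have h5 : (3 * ((n : ℚ) + 1) + 2) ≠ 0 := by positivity
    have h6 : ((n : ℚ) + 1) - 1 / 4 ≠ 0 := by intro h'; linarith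
    have h7 : ((n : ℚ) + 2) - 1 / 4 ≠ 0 := by intro h'; linarith
    have h8 : ((n : ℚ) + 1) + 1 / 4 ≠ 0 := by positivity
    have h9 : ((n : ℚ) + 1) ≠ 0 := by positivity
    have h10 : (3 * ((n : ℚ) + 1) - 1) ≠ 0 := by intro h'; linarith
    have h11 : 4 * ((n : ℚ) + 1) - 1 ≠ 0 := by intro h'; linarith
    have h12 : 4 * ((n : ℚ) + 2) - 1 ≠ 0 := by intro h'; linarith
    have h13 : ((n : ℚ) + 2) ≠ 0 := by positivity
    push_cast
    generalize Cm (n + 1) (k + 1) = c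
    have q0 : (3 * (n : ℚ) + 1) ≠ 0 := by positivity
    have q1 : (3 * (n : ℚ) + 2) ≠ 0 := by positivity
    have q2 : (3 * (n : ℚ) + 4) ≠ 0 := by positivity
    have q3 : (3 * (n : ℚ) + 5) ≠ 0 := by positivity
    have q4 : (4 * (n : ℚ) + 3) ≠ 0 := by positivity
    have q5 : (4 * (n : ℚ) + 7) ≠ 0 := by positivity
    have q6 : (4 * (n : ℚ) + 5) ≠ 0 := by positivity
    have q7 : (3 * (n : ℚ) + 2 * k + 5) ≠ 0 := by positivity
    have q8 : (3 * (n : ℚ) + 2 * k + 6) ≠ 0 := by positivity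
    have q9 : ((k : ℚ) + 2) ≠ 0 := by positivity
    rw [show (n : ℚ) + 1 - 1 / 4 + (k + 1) = (4 * n + 4 * k + 7) / 4 by ring,
      show (n : ℚ) + 1 + 1 / 4 + (k + 1) = (4 * n + 4 * k + 9) / 4 by ring,
      show (n : ℚ) + 2 - 1 / 4 + k = (4 * n + 4 * k + 7) / 4 by ring,
      show (n : ℚ) + 1 - 1 / 4 = (4 * n + 3) / 4 by ring,
      show (n : ℚ) + 2 - 1 / 4 = (4 * n + 7) / 4 by ring,
      show (n : ℚ) + 1 + 1 / 4 = (4 * n + 5) / 4 by ring,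
      show (n : ℚ) + 3 / 4 + (k + 1) = (4 * n + 4 * k + 7) / 4 by ring,
      show (3 * ((n : ℚ) + 1) + 1) / 2 + (k + 1) = (3 * n + 2 * k + 6) / 2 by ring,
      show (3 * ((n : ℚ) + 1)) / 2 + (k + 1) = (3 * n + 2 * k + 5) / 2 by ring,
      show (3 * ((n : ℚ) + 2)) / 2 + k = (3 * n + 2 * k + 6) / 2 by ring,
      show (3 * ((n : ℚ) + 1)) / 2 + k + 1 = (3 * n + 2 * k + 5) / 2 by ring,
      show (3 * ((n : ℚ) + 1)) / 2 + 1 = (3 * n + 5) / 2 by ring,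
      show (3 * ((n : ℚ) + 1) + 1) / 2 = (3 * n + 4) / 2 by ring,
      show (3 * ((n : ℚ) + 1) - 1) = (3 * n + 2) by ring,
      show (3 * ((n : ℚ) + 1) + 1) = (3 * n + 4) by ring,
      show (3 * ((n : ℚ) + 1) + 2) = (3 * n + 5) by ring,
      show (k : ℚ) + 1 + 1 = k + 2 by ring]
    field_simp
    ring

end Pool.Agent.helper86.BZ
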