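import Pool.Agent.helper86.BZ.Base

set_option autoImplicit false

/-! The polynomials `Q⁺ n`, `Q⁻ n` (MP_f6b435_co). -/

namespace Pool.Agent.helper86.BZ

open Pool.BZ

open Polynomial in
/-- `(Q⁺ n, Q⁺ (n+1), Q⁻ (n+1))` -/
noncomputable def QQ : ℕ → Polynomial ℚ × Polynomial ℚ × Polynomial ℚ
  | 0 => (C (1 / 2), C 4 * X, C 2 * X)
  | n + 1 =>
    ((QQ n).2.1,
      C (1 / (4 * ga (n + 1))) * ((1 + X) ^ 2 * divX (QQ n).2.2 - C 4 * (QQ n).1
        - C (4 * bb n) * (QQ n).2.1),
      C (1 / (4 * al (n + 1))) * ((1 + X) ^ 2 * divX (QQ n).2.1 - C 4 * (QQ n).2.2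
        - C ((divX (QQ n).2.1).coeff 0)))

/-- top coefficients `a⁺ (n+1)`, `a⁻ (n+1)` -/
def aa : ℕ → ℚ × ℚ
  | 0 => (4, 2)
  | n + 1 => ((aa n).2 / (4 * ga (n + 1)), (aa n).1 / (4 * al (n + 1)))

noncomputable def E : Polynomial ℚ →ₐ[ℚ] PowerSeries ℚ := Polynomial.aeval om
noncomputable def Eb : Polynomial ℚ →ₐ[ℚ] PowerSeries ℚ := Polynomial.aeval omb

lemma E_X : E Polynomial.X = om := by unfold E; simp
lemma Eb_X : Eb Polynomial.X = omb := by unfold Eb; simp
lemma E_C (c : ℚ) : E (Polynomial.C c) = PowerSeries.C c := by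
  unfold E; rw [Polynomial.aeval_C]; rfl
lemma Eb_C (c : ℚ) : Eb (Polynomial.C c) = PowerSeries.C c := by
  unfold Eb; rw [Polynomial.aeval_C]; rfl

lemma E_divX (p : Polynomial ℚ) (h : p.coeff 0 = 0) : E p = om * E p.divX := by
  conv_lhs => rw [← Polynomial.divX_mul_X_add p]
  rw [h, map_zero, add_zero, map_mul, E_X]; ring

lemma Eb_divX (p : Polynomial ℚ) (h : p.coeff 0 = 0) : Eb p = omb * Eb p.divX := by
  conv_lhs => rw [← Polynomial.divX_mul_X_add p]
  rw [h, map_zero, add_zero, map_mul, Eb_X]; ring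

lemma al_ne (n : ℕ) : al (n + 1) ≠ 0 := by
  have hn : (0 : ℚ) ≤ n := Nat.cast_nonneg n
  unfold al; push_cast; positivity

lemma ga_ne (n : ℕ) : ga (n + 1) ≠ 0 := by
  have hn : (0 : ℚ) ≤ n := Nat.cast_nonneg n
  unfold ga; push_cast
  have h1 : (4 * ((n : ℚ) + 1) - 1) ≠ 0 := by intro h; linarith
  have h2 : (3 * ((n : ℚ) + 1) - 1) ≠ 0 := by intro h; linarith
  have h3 : (4 * ((n : ℚ) + 1) + 1) ≠ 0 := by positivity
  have h4 : (4 * ((n : ℚ) + 1) + 3) ≠ 0 := by positivity
  have h5 : (2 * ((n : ℚ) + 1) + 1) ≠ 0 := by positivity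
  have h6 : (3 * ((n : ℚ) + 1) + 1) ≠ 0 := by positivity
  have h7 : (3 * ((n : ℚ) + 1) + 2) ≠ 0 := by positivity
  refine div_ne_zero ?_ ?_
  · exact mul_ne_zero (mul_ne_zero (mul_ne_zero h1 h3) h4) h5
  · exact mul_ne_zero (mul_ne_zero (mul_ne_zero (by norm_num) h2) (pow_ne_zero _ h6)) h7

lemma constantCoeff_om : PowerSeries.constantCoeff om = 0 := by unfold om; simp
lemma constantCoeff_omb : PowerSeries.constantCoeff omb = 0 := by unfold omb; simp

lemma constantCoeff_E (p : Polynomial ℚ) : PowerSeries.constantCoeff (E p) = p.coeff 0 := by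
  conv_lhs => rw [← Polynomial.divX_mul_X_add p]
  rw [map_add, map_mul, E_X, E_C, map_add, map_mul, constantCoeff_om]; simp

lemma constantCoeff_Eb (p : Polynomial ℚ) : PowerSeries.constantCoeff (Eb p) = p.coeff 0 := by
  conv_lhs => rw [← Polynomial.divX_mul_X_add p]
  rw [map_add, map_mul, Eb_X, Eb_C, map_add, map_mul, constantCoeff_omb]; simp

lemma natDegree_sub_le' {p q : Polynomial ℚ} {n : ℕ} (h1 : p.natDegree ≤ n)
    (h2 : q.natDegree ≤ n) : (p - q).natDegree ≤ n :=
  (Polynomial.natDegree_sub_le_of_le h1 h2).trans (by simp)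

structure Inv (n : ℕ) : Prop where
  e0 : E (QQ n).1 + Eb (QQ n).1 = Pp n
  e1 : E (QQ n).2.1 + Eb (QQ n).2.1 = Pp (n + 1)
  e2 : E (QQ n).2.2 - Eb (QQ n).2.2 = Pm n
  z1 : (QQ n).2.1.coeff 0 = 0
  z2 : (QQ n).2.2.coeff 0 = 0
  d0 : (QQ n).1.natDegree ≤ n
  d1 : (QQ n).2.1.natDegree ≤ n + 1
  d2 : (QQ n).2.2.natDegree ≤ n + 1
  a1 : (QQ n).2.1.coeff (n + 1) = (aa n).1
  a2 : (QQ n).2.2.coeff (n + 1) = (aa n).2

lemma natDegree_sq_mul (p : Polynomial ℚ) (n : ℕ) (h : p.natDegree ≤ n + 1) :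
    ((1 + Polynomial.X) ^ 2 * p.divX).natDegree ≤ n + 2 := by
  have h1 : ((1 + Polynomial.X : Polynomial ℚ) ^ 2).natDegree ≤ 2 := by
    have : (1 + Polynomial.X : Polynomial ℚ).natDegree ≤ 1 := by
      rw [add_comm]; exact (Polynomial.natDegree_X_add_C (1 : ℚ)).le
    calc _ ≤ 2 * (1 + Polynomial.X : Polynomial ℚ).natDegree := Polynomial.natDegree_pow_le
      _ ≤ 2 := by omega
  have h2 : p.divX.natDegree ≤ n := by
    rw [Polynomial.natDegree_divX_eq_natDegree_tsub_one]; omega
  calc _ ≤ _ := Polynomial.natDegree_mul_le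
    _ ≤ n + 2 := by omega

lemma coeff_sq_mul (p : Polynomial ℚ) (n : ℕ) (h : p.natDegree ≤ n + 1) :
    ((1 + Polynomial.X) ^ 2 * p.divX).coeff (n + 2) = p.coeff (n + 1) := by
  have e : (1 + Polynomial.X) ^ 2 * p.divX = p.divX + 2 * (p.divX * Polynomial.X)
      + p.divX * Polynomial.X * Polynomial.X := by ring
  rw [e, Polynomial.coeff_add, Polynomial.coeff_add, Polynomial.coeff_mul_X,
    Polynomial.coeff_mul_X, Polynomial.coeff_divX, Polynomial.coeff_divX]
  have h1 : p.coeff (n + 2 + 1) = 0 := Polynomial.coeff_eq_zero_of_natDegree_lt (by omega)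
  have h2 : (2 * (p.divX * Polynomial.X)).coeff (n + 2) = 0 := by
    have : (2 : Polynomial ℚ) = Polynomial.C 2 := (map_ofNat Polynomial.C 2).symm
    rw [this, Polynomial.coeff_C_mul, Polynomial.coeff_mul_X, Polynomial.coeff_divX,
      Polynomial.coeff_eq_zero_of_natDegree_lt (by omega), mul_zero]
  rw [h1, h2]; ring

lemma C4' : (PowerSeries.C (4 : ℚ)) = 4 := map_ofNat _ 4

lemma inv : ∀ n, Inv n
  | 0 => by
    refine ⟨?_, ?_, ?_, ?_, ?_, ?_, ?_, ?_, ?_, ?_⟩
    · simp only [QQ, E_C, Eb_C, Pp_zero]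
      rw [← map_add, ← map_one (PowerSeries.C : ℚ →+* PowerSeries ℚ)]; norm_num
    · simp only [QQ, map_mul, E_C, Eb_C, E_X, Eb_X, zero_add, Pp_one, C4']; ring
    · simp only [QQ, map_mul, E_C, Eb_C, E_X, Eb_X, Pm_zero, C_two]; ring
    · simp [QQ]
    · simp [QQ]
    · simp [QQ]
    · simp only [QQ]; exact (Polynomial.natDegree_C_mul_le _ _).trans Polynomial.natDegree_X_le
    · simp only [QQ]; exact (Polynomial.natDegree_C_mul_le _ _).trans Polynomial.natDegree_X_le
    · simp [QQ, aa]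
    · simp [QQ, aa]
  | n + 1 => by
    have ih := inv n
    have hg := ga_ne n
    have ha := al_ne n
    have hom := rr_om
    have homb := rr_omb
    -- the new plus row
    have ePlus : E (QQ (n + 1)).2.1 + Eb (QQ (n + 1)).2.1 = Pp (n + 2) := by
      simp only [QQ, map_mul, map_sub, map_add, map_pow, map_one, E_C, Eb_C, E_X, Eb_X, C4']
      have m1 := E_divX _ ih.z2
      have m2 := Eb_divX _ ih.z2
      have h2 := Psi_H2 n
      have i0 := ih.e0
      have i1 := ih.e1
      have i2 := ih.e2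
      have hC : (PowerSeries.C (1 / (4 * ga (n + 1))) : PowerSeries ℚ) *
          (4 * PowerSeries.C (ga (n + 1))) = 1 := by
        rw [← C4', ← map_mul, ← map_mul, one_div, inv_mul_cancel₀ (by positivity), map_one]
      generalize E (QQ n).2.2.divX = q1 at *
      generalize Eb (QQ n).2.2.divX = q2 at *
      generalize E (QQ n).2.2 = s1 at *
      generalize Eb (QQ n).2.2 = s2 at *
      generalize E (QQ n).2.1 = t1 at *
      generalize Eb (QQ n).2.1 = t2 at *
      generalize E (QQ n).1 = u1 at *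
      generalize Eb (QQ n).1 = u2 at *
      generalize (PowerSeries.C (1 / (4 * ga (n + 1))) : PowerSeries ℚ) = c at *
      generalize (PowerSeries.C (bb n) : PowerSeries ℚ) = b at *
      generalize (PowerSeries.C (ga (n + 1)) : PowerSeries ℚ) = g at *
      apply mul_left_cancel₀ rr_ne
      linear_combination c * q1 * hom + c * q2 * homb - 4 * c * m1 + 4 * c * m2 + 4 * c * i2
        + 4 * c * h2 - 4 * c * rr * i0 - 4 * c * rr * b * i1 + rr * Pp (n + 2) * hC
    have eMinus : E (QQ (n + 1)).2.2 - Eb (QQ (n + 1)).2.2 = Pm (n + 1) := by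
      simp only [QQ, map_mul, map_sub, map_add, map_pow, map_one, E_C, Eb_C, E_X, Eb_X, C4']
      have m1 := E_divX _ ih.z1
      have m2 := Eb_divX _ ih.z1
      have h1 := Psi_H1 n
      have i1 := ih.e1
      have i2 := ih.e2
      have hC : (PowerSeries.C (1 / (4 * al (n + 1))) : PowerSeries ℚ) *
          (4 * PowerSeries.C (al (n + 1))) = 1 := by
        rw [← C4', ← map_mul, ← map_mul, one_div, inv_mul_cancel₀ (by positivity), map_one]
      have h1' : Pp (n + 1) = rr * Pm n + PowerSeries.C (al (n + 1)) * rr * Pm (n + 1) := by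
        apply mul_left_cancel₀ rr_ne
        unfold uu at h1
        linear_combination h1
      generalize E (QQ n).2.1.divX = q1 at *
      generalize Eb (QQ n).2.1.divX = q2 at *
      generalize E (QQ n).2.2 = s1 at *
      generalize Eb (QQ n).2.2 = s2 at *
      generalize E (QQ n).2.1 = t1 at *
      generalize Eb (QQ n).2.1 = t2 at *
      generalize (PowerSeries.C (1 / (4 * al (n + 1))) : PowerSeries ℚ) = c at *
      generalize (PowerSeries.C (al (n + 1)) : PowerSeries ℚ) = a at *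
      apply mul_left_cancel₀ rr_ne
      linear_combination c * q1 * hom - c * q2 * homb - 4 * c * m1 - 4 * c * m2 + 4 * c * i1
        + 4 * c * h1' - 4 * c * rr * i2 + rr * Pm (n + 1) * hC
    have dP : (QQ (n + 1)).2.1.natDegree ≤ n + 2 := by
      simp only [QQ]
      refine (Polynomial.natDegree_C_mul_le _ _).trans ?_
      refine natDegree_sub_le' (natDegree_sub_le'
        (natDegree_sq_mul _ n ih.d2) ?_) ?_
      · exact (Polynomial.natDegree_C_mul_le _ _).trans (ih.d0.trans (by omega))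
      · exact (Polynomial.natDegree_C_mul_le _ _).trans (ih.d1.trans (by omega))
    have dM : (QQ (n + 1)).2.2.natDegree ≤ n + 2 := by
      simp only [QQ]
      refine (Polynomial.natDegree_C_mul_le _ _).trans ?_
      refine natDegree_sub_le' (natDegree_sub_le'
        (natDegree_sq_mul _ n ih.d1) ?_) ?_
      · exact (Polynomial.natDegree_C_mul_le _ _).trans (ih.d2.trans (by omega))
      · rw [Polynomial.natDegree_C]; omega
    refine ⟨ih.e1, ePlus, eMinus, ?_, ?_, ih.d1, dP, dM, ?_, ?_⟩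
    · have h := congrArg PowerSeries.constantCoeff ePlus
      rw [map_add, constantCoeff_E, constantCoeff_Eb, Pp_eq, map_mul, map_pow,
        PowerSeries.constantCoeff_X, zero_pow (by omega), zero_mul] at h
      linarith
    · simp only [QQ]
      rw [Polynomial.coeff_C_mul, Polynomial.coeff_sub, Polynomial.coeff_sub,
        Polynomial.coeff_C_mul, ih.z2, Polynomial.mul_coeff_zero, Polynomial.coeff_C_zero]
      have : ((1 + Polynomial.X : Polynomial ℚ) ^ 2).coeff 0 = 1 := by
        rw [Polynomial.coeff_zero_eq_eval_zero]; simp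
      rw [this]; ring
    · simp only [QQ]
      rw [Polynomial.coeff_C_mul, Polynomial.coeff_sub, Polynomial.coeff_sub,
        Polynomial.coeff_C_mul, Polynomial.coeff_C_mul, coeff_sq_mul _ n ih.d2,
        Polynomial.coeff_eq_zero_of_natDegree_lt (by have := ih.d0; omega : (QQ n).1.natDegree < n + 2),
        Polynomial.coeff_eq_zero_of_natDegree_lt (by have := ih.d1; omega : (QQ n).2.1.natDegree < n + 2),
        ih.a2, aa]
      ring
    · simp only [QQ]
      rw [Polynomial.coeff_C_mul, Polynomial.coeff_sub, Polynomial.coeff_sub,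
        Polynomial.coeff_C_mul, coeff_sq_mul _ n ih.d1,
        Polynomial.coeff_eq_zero_of_natDegree_lt (by have := ih.d2; omega : (QQ n).2.2.natDegree < n + 2),
        Polynomial.coeff_C_succ, ih.a1, aa]
      ring

end Pool.Agent.helper86.BZ
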