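import Pool.Agent.helper40.BZ.SerDefs
import Pool.Agent.helper86.BZ.Hyp

set_option autoImplicit false

/-! Power series and substitution facts (MP_f6b435_co). -/

namespace Pool.Agent.helper86.BZ

open PowerSeries Pool.BZ

/-- `1/(1+X)` -/
noncomputable def gm : PowerSeries ℚ := (1 + X)⁻¹
/-- `1/(1+X²)` -/
noncomputable def ss : PowerSeries ℚ := (1 + X ^ 2)⁻¹

lemma geo_mul : geo * (1 - X) = 1 := by
  have := PowerSeries.mk_one_mul_one_sub_eq_one ℚ
  exact this

lemma gm_mul : gm * (1 + X) = 1 := by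
  unfold gm
  exact PowerSeries.inv_mul_cancel _ (by simp)

lemma ss_mul : ss * (1 + X ^ 2) = 1 := by
  unfold ss
  exact PowerSeries.inv_mul_cancel _ (by simp)

noncomputable def omb : PowerSeries ℚ := -(X * (1 - X) * gm)
noncomputable def rr : PowerSeries ℚ := 4 * X * (1 - X ^ 2) * ss ^ 2
noncomputable def uu : PowerSeries ℚ := rr ^ 2
noncomputable def kap : PowerSeries ℚ := (1 - 6 * X ^ 2 + X ^ 4) * ss ^ 2

lemma one_add_om : 1 + om = (1 + X ^ 2) * geo := by
  unfold om
  linear_combination (-1 : PowerSeries ℚ) * geo_mul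

lemma one_add_omb : 1 + omb = (1 + X ^ 2) * gm := by
  unfold omb
  linear_combination (-1 : PowerSeries ℚ) * gm_mul

lemma rr_om : rr * (1 + om) ^ 2 = 4 * om := by
  rw [one_add_om]
  have h1 := ss_mul
  have h2 := geo_mul
  have : rr * ((1 + X ^ 2) * geo) ^ 2 = 4 * X * (1 + X) * geo * (ss * (1 + X ^ 2)) ^ 2 *
      (geo * (1 - X)) := by
    unfold rr; ring
  rw [this, h1, h2]; unfold om; ring

lemma rr_omb : rr * (1 + omb) ^ 2 = -(4 * omb) := by
  rw [one_add_omb]
  have h1 := ss_mul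
  have h2 := gm_mul
  have : rr * ((1 + X ^ 2) * gm) ^ 2 = 4 * X * (1 - X) * gm * (ss * (1 + X ^ 2)) ^ 2 *
      (gm * (1 + X)) := by
    unfold rr; ring
  rw [this, h1, h2]; unfold omb; ring

lemma constantCoeff_ss : constantCoeff ss = 1 := by
  have := congrArg constantCoeff ss_mul
  simpa using this

lemma rr_ne : rr ≠ 0 := by
  intro h
  have h1 := congrArg (coeff 1) h
  have : rr = X * (4 * (1 - X ^ 2) * ss ^ 2) := by unfold rr; ring
  rw [this, show (1:ℕ) = 0 + 1 from rfl, coeff_succ_X_mul] at h1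
  rw [coeff_zero_eq_constantCoeff_apply] at h1
  simp only [map_mul, map_sub, map_pow, constantCoeff_ss, map_ofNat, map_one, constantCoeff_X,
    map_zero] at h1
  norm_num at h1

lemma hasSubst_uu : HasSubst (uu : PowerSeries ℚ) := by
  apply HasSubst.of_constantCoeff_zero'
  unfold uu rr
  simp

/-- substitution `y ↦ u` -/
noncomputable def Psi : PowerSeries ℚ →ₐ[ℚ] PowerSeries ℚ := substAlgHom hasSubst_uu

lemma Psi_apply (f : PowerSeries ℚ) : Psi f = f.subst uu := by
  unfold Psi; rw [coe_substAlgHom]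

lemma Psi_X : Psi X = uu := by
  rw [Psi_apply]; exact subst_X hasSubst_uu

lemma Psi_C (c : ℚ) : Psi (C c) = C c := by
  have := Psi.commutes c
  simpa using this

lemma constantCoeff_Psi (f : PowerSeries ℚ) : constantCoeff (Psi f) = constantCoeff f := by
  have h : f = X * (mk fun n => coeff (n + 1) f) + C (constantCoeff f) := by
    ext n
    cases n with
    | zero => simp
    | succ n => rw [map_add, coeff_succ_X_mul, coeff_mk, coeff_C]; simp
  rw [h, map_add, map_mul, Psi_X, Psi_C]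
  have : constantCoeff uu = 0 := by unfold uu rr; simp
  simp [this]

/-! ### target rows -/

noncomputable def Pp (n : ℕ) : PowerSeries ℚ := Psi (X ^ n * Hp n)
/-- `Pm n` is the row `P⁻_{n+1}` -/
noncomputable def Pm (n : ℕ) : PowerSeries ℚ := rr * Psi (X ^ n * Hm (n + 1))

noncomputable def UU : PowerSeries ℚ := 16 * (1 - X ^ 2) ^ 2 * ss ^ 4

lemma uu_eq : uu = X ^ 2 * UU := by unfold uu rr UU; ring

lemma Pp_eq (n : ℕ) : Pp n = X ^ (2 * n) * (UU ^ n * Psi (Hp n)) := by
  unfold Pp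
  rw [map_mul, map_pow, Psi_X, uu_eq]; ring

lemma Pm_eq (n : ℕ) : Pm n = X ^ (2 * n + 1) * (4 * (1 - X ^ 2) * ss ^ 2 * UU ^ n *
    Psi (Hm (n + 1))) := by
  unfold Pm
  rw [map_mul, map_pow, Psi_X, uu_eq]; unfold rr; ring

lemma constantCoeff_UU : constantCoeff UU = 16 := by
  unfold UU
  simp only [map_mul, map_sub, map_pow, constantCoeff_ss, map_ofNat, map_one, constantCoeff_X]
  norm_num

lemma Pp_lead (n : ℕ) : constantCoeff (UU ^ n * Psi (Hp n)) = 4 ^ (2 * n) := by
  rw [map_mul, map_pow, constantCoeff_UU, constantCoeff_Psi]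
  have : constantCoeff (Hp n) = 1 := by simp [Hp, Cp, ← coeff_zero_eq_constantCoeff_apply]
  rw [this, pow_mul]; norm_num

lemma Pm_lead (n : ℕ) : constantCoeff (4 * (1 - X ^ 2) * ss ^ 2 * UU ^ n * Psi (Hm (n + 1)))
    = 4 ^ (2 * n + 1) := by
  rw [map_mul, map_mul, map_pow, constantCoeff_UU, constantCoeff_Psi]
  have : constantCoeff (Hm (n + 1)) = 1 := by simp [Hm, Cm, ← coeff_zero_eq_constantCoeff_apply]
  rw [this]
  simp only [map_mul, map_sub, map_pow, constantCoeff_ss, map_ofNat, map_one, constantCoeff_X]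
  rw [pow_add, pow_mul]
  norm_num
  ring

/-- (H1) under `Psi` -/
lemma Psi_H1 (n : ℕ) : Pp (n + 1) * rr = uu * Pm n + C (al (n + 1)) * uu * Pm (n + 1) := by
  have h := H1 (n + 1) (by omega)
  unfold Pp Pm
  rw [h]
  simp only [map_mul, map_add, map_pow, Psi_X, Psi_C]
  ring

/-- (H2) under `Psi` -/
lemma Psi_H2 (n : ℕ) : Pm n = rr * (Pp n + C (bb n) * Pp (n + 1) + C (ga (n + 1)) * Pp (n + 2)) := by
  have h := H2 n
  unfold Pp Pm
  rw [h]
  simp only [map_mul, map_add, map_pow, Psi_X, Psi_C]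
  ring

end Pool.Agent.helper86.BZ
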